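import Pool.Agent.T9h92.RothbergerLex

/-!
ZFC proves that there is a zero-dimensional Hausdorff space which is Rothberger but
not omega-Rothberger.
-/

set_option linter.unusedSectionVars false

open Set

namespace Pool.Agent.Results.MP_f9bcb0_lc.RothbergerNotOmega

/-- open cover -/
def IsOpenCover {X : Type} [TopologicalSpace X] (U : Set (Set X)) : Prop :=
  (∀ O ∈ U, IsOpen O) ∧ ⋃₀ U = univ

/-- an omega-cover: an open cover without the whole space as a member, such that every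
finite set of points is contained in a member -/
def IsOmegaCover {X : Type} [TopologicalSpace X] (U : Set (Set X)) : Prop :=
  IsOpenCover U ∧ univ ∉ U ∧ ∀ F : Set X, F.Finite → ∃ O ∈ U, F ⊆ O

/-- the Rothberger property -/
def IsRothberger (X : Type) [TopologicalSpace X] : Prop :=
  ∀ U : ℕ → Set (Set X), (∀ n, IsOpenCover (U n)) →
    ∃ V : ℕ → Set X, (∀ n, V n ∈ U n) ∧ IsOpenCover (range V)

/-- the omega-Rothberger property -/
def IsOmegaRothberger (X : Type) [TopologicalSpace X] : Prop :=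
  ∀ U : ℕ → Set (Set X), (∀ n, IsOmegaCover (U n)) →
    ∃ V : ℕ → Set X, (∀ n, V n ∈ U n) ∧ IsOmegaCover (range V)

open Pool.Agent.T9h92.Roth

section Space

variable {W : Type} [LinearOrder W] [WellFoundedLT W] [OrderBot W] [Uncountable W]
variable (A : ATree W)

/-- `u` agrees with `t` up to `α` and is at most `t` in the lexicographic order -/
def Below (i : Bool) (α : W) (t u : A.T) : Prop :=
  (∀ ξ ≤ α, A.fn u ξ = A.fn t ξ) ∧ (u = t ∨ Lt (rho i) (A.fn u) (A.fn t))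

/-- the space: two copies of the tree -/
def Sp : Type := A.T × Bool

variable {A}

theorem Below.refl (i : Bool) (α : W) (t : A.T) : Below A i α t t :=
  ⟨fun _ _ => rfl, Or.inl rfl⟩

theorem Below.trans {i : Bool} {α : W} {t u v : A.T} (h1 : Below A i α t u)
    (h2 : Below A i α u v) : Below A i α t v := by
  refine ⟨fun ξ hξ => (h2.1 ξ hξ).trans (h1.1 ξ hξ), ?_⟩
  rcases h2.2 with rfl | h3
  · exact h1.2
  · rcases h1.2 with rfl | h4
    · exact Or.inr h3
    · exact Or.inr (Lt.trans (good_rho i) h3 h4)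

theorem Below.mono {i : Bool} {α β : W} (h : α ≤ β) {t u : A.T} (h1 : Below A i β t u) :
    Below A i α t u :=
  ⟨fun ξ hξ => h1.1 ξ (hξ.trans h), h1.2⟩

instance : TopologicalSpace (Sp A) where
  IsOpen O := ∀ p ∈ O, ∃ α, α < A.ht p.1 ∧ ∀ u, Below A p.2 α p.1 u → ((u, p.2) : A.T × Bool) ∈ O
  isOpen_univ := fun p _ => ⟨⊥, A.pos _, fun _ _ => mem_univ _⟩
  isOpen_inter := by
    rintro O O' h h' p ⟨hp, hp'⟩
    obtain ⟨α, hα, h1⟩ := h p hp
    obtain ⟨β, hβ, h2⟩ := h' p hp'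
    exact ⟨max α β, max_lt hα hβ, fun u hu =>
      ⟨h1 u (hu.mono (le_max_left _ _)), h2 u (hu.mono (le_max_right _ _))⟩⟩
  isOpen_sUnion := by
    rintro S hS p ⟨O, hO, hp⟩
    obtain ⟨α, hα, h1⟩ := hS O hO p hp
    exact ⟨α, hα, fun u hu => ⟨O, hO, h1 u hu⟩⟩

theorem isOpen_iff' {O : Set (Sp A)} : IsOpen O ↔
    ∀ p ∈ O, ∃ α, α < A.ht p.1 ∧ ∀ u, Below A p.2 α p.1 u → ((u, p.2) : A.T × Bool) ∈ O :=
  Iff.rfl

/-- basic neighbourhoods -/
def Nb (i : Bool) (α : W) (t : A.T) : Set (Sp A) := {p | p.2 = i ∧ Below A i α t p.1}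

theorem mem_Nb_self (i : Bool) (α : W) (t : A.T) : ((t, i) : A.T × Bool) ∈ Nb i α t :=
  ⟨rfl, Below.refl _ _ _⟩

theorem isOpen_Nb {i : Bool} {α : W} {t : A.T} (h : α < A.ht t) : IsOpen (Nb i α t) := by
  rw [isOpen_iff']
  rintro ⟨u, j⟩ ⟨hj, hu⟩
  simp only at hj hu
  subst hj
  refine ⟨α, ?_, fun v hv => ⟨rfl, hu.trans hv⟩⟩
  by_contra hcon
  have h1 : A.fn u α = 0 := (A.zero _ _).2 (not_lt.1 hcon)
  rw [hu.1 α le_rfl] at h1
  exact absurd ((A.zero _ _).1 h1) (not_le.2 h)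

theorem isClosed_Nb {i : Bool} {α : W} {t : A.T} (h : α < A.ht t) : IsClosed (Nb i α t) := by
  rw [← isOpen_compl_iff, isOpen_iff']
  rintro ⟨v, j⟩ hv
  by_cases hj : j = i
  · subst hj
    have hv' : ¬ Below A j α t v := fun h => hv ⟨rfl, h⟩
    have hne : A.fn v ≠ A.fn t := by
      intro h
      have := A.inj h
      subst this
      exact hv' (Below.refl _ _ _)
    obtain ⟨ξ, h1, h2⟩ := first_diff hne
    by_cases h3 : A.fn v ξ = 0
    · -- `v` is an initial segment of `t`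
      have hvt : Lt (rho j) (A.fn v) (A.fn t) := by
        refine ⟨ξ, h1, ?_⟩
        rw [h3]
        refine (good_rho j).zero _ ?_
        intro h4; exact h2 (h3.trans h4.symm)
      refine ⟨⊥, A.pos _, ?_⟩
      rintro u ⟨_, hu⟩ ⟨_, hu2, hu3⟩
      by_cases h5 : ξ ≤ α
      · have h6 : Lt (rho j) (A.fn v) (A.fn u) := by
          refine ⟨ξ, fun η hη => ?_, ?_⟩
          · rw [h1 η hη]; exact (hu2 η (hη.le.trans h5)).symm
          · rw [h3, show A.fn u ξ = A.fn t ξ from hu2 ξ h5]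
            refine (good_rho j).zero _ ?_
            intro h4; exact h2 (h3.trans h4.symm)
        rcases hu with hu | hu
        · subst hu; exact Lt.irrefl (good_rho j) _ h6
        · exact Lt.asymm (good_rho j) h6 hu
      · exact hv' ⟨fun η hη => h1 η (lt_of_le_of_lt hη (not_le.1 h5)), Or.inr hvt⟩
    · have hξ : ξ < A.ht v := by
        by_contra hcon
        exact h3 ((A.zero _ _).2 (not_lt.1 hcon))
      refine ⟨ξ, hξ, ?_⟩
      rintro u ⟨hu1, _⟩ ⟨_, hu2, hu3⟩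
      have hαξ : α < ξ := by
        by_contra hcon
        have h4 := hu2 ξ (not_lt.1 hcon)
        have h5 := hu1 ξ le_rfl
        exact h2 (h5.symm.trans h4)
      apply hv'
      refine ⟨fun η hη => h1 η (lt_of_le_of_lt hη hαξ), Or.inr ⟨ξ, h1, ?_⟩⟩
      rcases hu3 with hu3 | ⟨ζ, h4, h5⟩
      · exfalso
        simp only at hu3
        subst hu3
        exact h2 (hu1 ξ le_rfl).symm
      · have h6 : ζ = ξ := by
          refine diff_unique h4 ?_ (fun η hη => ?_) ?_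
          · intro h7
            simp only at h5
            rw [h7] at h5
            exact (good_rho j).irrefl _ h5
          · simp only
            rw [hu1 η hη.le, h1 η hη]
          · simp only
            rw [hu1 ξ le_rfl]; exact h2
        subst h6
        simp only at h5
        rw [hu1 ζ le_rfl] at h5
        exact h5
  · refine ⟨⊥, A.pos _, fun u _ h => hj h.1⟩

theorem isBasis : TopologicalSpace.IsTopologicalBasis {s : Set (Sp A) | IsClopen s} := by
  refine TopologicalSpace.isTopologicalBasis_of_isOpen_of_nhds (fun s hs => hs.2) ?_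
  rintro ⟨t, i⟩ O ht hO
  obtain ⟨α, hα, h⟩ := (isOpen_iff'.1 hO) _ ht
  refine ⟨Nb i α t, ⟨isClosed_Nb hα, isOpen_Nb hα⟩, mem_Nb_self i α t, ?_⟩
  rintro ⟨u, j⟩ ⟨hj, hu⟩
  simp only at hj hu
  subst hj
  exact h u hu

theorem exists_sep {p q : Sp A} (h : p ≠ q) :
    ∃ s : Set (Sp A), IsClopen s ∧ ((p ∈ s ∧ q ∉ s) ∨ (q ∈ s ∧ p ∉ s)) := by
  obtain ⟨t, i⟩ := p
  obtain ⟨u, j⟩ := q
  by_cases hij : j = i
  · subst hij
    have hne : A.fn t ≠ A.fn u := by
      intro h1; apply h; rw [A.inj h1]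
    rcases Lt.total (good_rho j) hne with h1 | h1
    · refine ⟨Nb j ⊥ t, ⟨isClosed_Nb (A.pos _), isOpen_Nb (A.pos _)⟩,
        Or.inl ⟨mem_Nb_self _ _ _, ?_⟩⟩
      rintro ⟨_, _, h2⟩
      rcases h2 with h2 | h2
      · exact hne (by rw [show u = t from h2])
      · exact Lt.asymm (good_rho j) h1 h2
    · refine ⟨Nb j ⊥ u, ⟨isClosed_Nb (A.pos _), isOpen_Nb (A.pos _)⟩,
        Or.inr ⟨mem_Nb_self _ _ _, ?_⟩⟩
      rintro ⟨_, _, h2⟩
      rcases h2 with h2 | h2
      · exact hne (by rw [show t = u from h2])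
      · exact Lt.asymm (good_rho j) h1 h2
  · refine ⟨Nb i ⊥ t, ⟨isClosed_Nb (A.pos _), isOpen_Nb (A.pos _)⟩,
      Or.inl ⟨mem_Nb_self _ _ _, ?_⟩⟩
    rintro ⟨h1, _⟩
    exact hij h1

theorem t2 : T2Space (Sp A) := by
  refine ⟨fun p q h => ?_⟩
  obtain ⟨s, hs, h1 | h1⟩ := exists_sep h
  · exact ⟨s, sᶜ, hs.isOpen, hs.compl.isOpen, h1.1, h1.2, disjoint_compl_right⟩
  · exact ⟨sᶜ, s, hs.compl.isOpen, hs.isOpen, h1.2, h1.1, disjoint_compl_left⟩

theorem nodes_nonempty (hc : ∀ a : W, (Iio a).Countable) (A : ATree W) : Nonempty A.T := by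
  obtain ⟨b, hb⟩ := exists_gt_countable hc (countable_singleton (⊥ : W))
  obtain ⟨t, -⟩ := A.exists_ht b (hb ⊥ rfl)
  exact ⟨t⟩

theorem nodes_uncountable (hc : ∀ a : W, (Iio a).Countable) (A : ATree W) :
    ¬ (univ : Set A.T).Countable := by
  intro h
  have h1 : (A.ht '' univ).Countable := h.image _
  obtain ⟨b, hb⟩ := exists_gt_countable hc (h1.insert ⊥)
  obtain ⟨t, ht⟩ := A.exists_ht b (hb ⊥ (mem_insert _ _))
  exact lt_irrefl _ ((hb (A.ht t) (mem_insert_of_mem _ ⟨t, mem_univ _, rfl⟩)).trans_eq ht.symm)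

theorem rothberger (hc : ∀ a : W, (Iio a).Countable) : IsRothberger (Sp A) := by
  intro U hU
  have hne : Nonempty A.T := nodes_nonempty hc A
  have h1 : ∀ (n : ℕ) (p : Sp A), ∃ (V : Set (Sp A)) (α : W), V ∈ U n ∧ α < A.ht p.1 ∧
      ∀ u, Below A p.2 α p.1 u → ((u, p.2) : A.T × Bool) ∈ V := by
    intro n p
    have hp : p ∈ ⋃₀ U n := by rw [(hU n).2]; exact mem_univ _
    obtain ⟨V, hV, hpV⟩ := hp
    obtain ⟨α, hα, h⟩ := (isOpen_iff'.1 ((hU n).1 V hV)) p hpV
    exact ⟨V, α, hV, hα, h⟩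
  choose V al hV hal hVal using h1
  have hnx : ∀ ξ : W, ∃ δ, ξ < δ := fun ξ => by
    obtain ⟨b, hb⟩ := exists_gt_countable hc (countable_singleton ξ)
    exact ⟨b, hb ξ rfl⟩
  choose nx hnx using hnx
  have hnx0 : ∀ ξ, ⊥ < nx ξ := fun ξ => lt_of_le_of_lt bot_le (hnx ξ)
  -- the classes and their countable cofinal parts
  have h2 : ∀ (n : ℕ) (i : Bool) (α : W) (s : A.T), ∃ C : Set A.T,
      C ⊆ {t | al n (t, i) = α ∧ A.tr (nx α) (hnx0 α) t = s} ∧ C.Countable ∧
      ∀ t, al n (t, i) = α → A.tr (nx α) (hnx0 α) t = s →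
        ∃ c ∈ C, t = c ∨ Lt (rho i) (A.fn t) (A.fn c) := by
    intro n i α s
    obtain ⟨C, h1, h2, h3⟩ := exists_countable_cofinal A hc (good_rho i)
      {t | al n (t, i) = α ∧ A.tr (nx α) (hnx0 α) t = s}
    exact ⟨C, h1, h2, fun t ht ht' => h3 t ⟨ht, ht'⟩⟩
  choose C hC1 hC2 hC3 using h2
  have h3 : ∀ α : W, ∃ b : W, ∀ (n : ℕ) (i : Bool) (s : A.T), A.ht s ≤ nx α →
      ∀ c ∈ C n i α s, A.ht c < b := by
    intro α
    have hcount : (⋃ n : ℕ, ⋃ i : Bool, ⋃ s ∈ {s | A.ht s ≤ nx α}, A.ht '' C n i α s).Countable := by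
      refine countable_iUnion fun n => countable_iUnion fun i => ?_
      exact (A.countable_le hc (nx α)).biUnion fun s _ => (hC2 n i α s).image _
    obtain ⟨b, hb⟩ := exists_gt_countable hc hcount
    refine ⟨b, fun n i s hs c hcC => hb _ ?_⟩
    exact mem_iUnion.2 ⟨n, mem_iUnion.2 ⟨i, mem_biUnion (show s ∈ {s | A.ht s ≤ nx α} from hs)
      ⟨c, hcC, rfl⟩⟩⟩
  choose F hF using h3
  obtain ⟨δ, hδ0, hδ⟩ := exists_closed hc F
  -- the targets
  have key : ∀ (n : ℕ) (q : Sp A), A.ht q.1 ≤ δ → ∃ O ∈ U n,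
      ∀ u : A.T, A.tr δ hδ0 u = q.1 → ((u, q.2) : A.T × Bool) ∈ O := by
    rintro n ⟨h, i⟩ hh
    simp only at hh
    rcases hh.lt_or_eq with hlt | heq
    · refine ⟨V n (h, i), hV _ _, fun u hu => ?_⟩
      simp only at hu ⊢
      have h4 : h = u := by
        refine A.eq_of_agree (δ := δ) (fun ξ hξ => ?_) hlt
        rw [← hu, A.fn_tr δ hδ0 u ξ hξ]
      subst h4
      exact hVal n (h, i) h (Below.refl _ _ _)
    · -- a node of height `δ`
      have hα : al n (h, i) < δ := (hal n (h, i)).trans_eq heq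
      obtain ⟨c, hcC, hhc⟩ := hC3 n i (al n (h, i)) (A.tr _ (hnx0 (al n (h, i))) h) h rfl rfl
      have hs : A.ht (A.tr _ (hnx0 (al n (h, i))) h) ≤ nx (al n (h, i)) := by
        rw [A.ht_tr]; exact min_le_left _ _
      have hcδ : A.ht c < δ := (hF _ n i _ hs c hcC).trans_le (hδ _ hα)
      obtain ⟨hc1, hc2⟩ := hC1 n i _ _ hcC
      have hlt : Lt (rho i) (A.fn h) (A.fn c) := by
        rcases hhc with h5 | h5
        · subst h5; exact absurd heq hcδ.ne
        · exact h5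
      refine ⟨V n (c, i), hV _ _, fun u hu => ?_⟩
      simp only at hu ⊢
      refine hVal n (c, i) u ?_
      simp only
      have hagr : ∀ ξ < δ, A.fn u ξ = A.fn h ξ := by
        intro ξ hξ
        rw [← hu, A.fn_tr δ hδ0 u ξ hξ]
      refine ⟨fun ξ hξ => ?_, Or.inr ?_⟩
      · rw [hc1] at hξ
        rw [hagr ξ (lt_of_le_of_lt hξ hα)]
        exact (A.eq_of_tr (hnx0 _) hc2 ξ (lt_of_le_of_lt hξ (hnx _))).symm
      · obtain ⟨ξ, h6, h7⟩ := hlt
        have hξ : ξ < δ := by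
          by_contra hcon
          have h8 : A.fn c ξ = 0 := (A.zero _ _).2 (hcδ.le.trans (not_lt.1 hcon))
          rw [h8] at h7
          exact (good_rho i).not_zero _ h7
        refine ⟨ξ, fun η hη => ?_, ?_⟩
        · rw [hagr η (hη.trans hξ)]; exact h6 η hη
        · rw [hagr ξ hξ]; exact h7
  -- enumerate the targets
  have hK : {q : Sp A | A.ht q.1 ≤ δ}.Countable := by
    have : {q : Sp A | A.ht q.1 ≤ δ} = {t | A.ht t ≤ δ} ×ˢ (univ : Set Bool) := by
      ext ⟨t, i⟩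
      exact ⟨fun h => ⟨h, mem_univ _⟩, fun h => h.1⟩
    rw [this]
    exact (A.countable_le hc δ).prod countable_univ
  have hKne : {q : Sp A | A.ht q.1 ≤ δ}.Nonempty := by
    obtain ⟨t, ht⟩ := A.exists_ht δ hδ0
    exact ⟨(t, true), ht.le⟩
  obtain ⟨f, hf⟩ := hK.exists_eq_range hKne
  have hfk : ∀ k, A.ht (f k).1 ≤ δ := by
    intro k
    have : f k ∈ {q : Sp A | A.ht q.1 ≤ δ} := by rw [hf]; exact mem_range_self k
    exact this
  have h4 : ∀ n, ∃ O ∈ U n,
      ∀ u : A.T, A.tr δ hδ0 u = (f n).1 → ((u, (f n).2) : A.T × Bool) ∈ O :=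
    fun n => key n (f n) (hfk n)
  choose G hG hG2 using h4
  refine ⟨G, hG, ?_, ?_⟩
  · rintro O ⟨n, rfl⟩
    exact (hU n).1 _ (hG n)
  · rw [eq_univ_iff_forall]
    rintro ⟨u, i⟩
    have hmem : ((A.tr δ hδ0 u, i) : A.T × Bool) ∈ {q : Sp A | A.ht q.1 ≤ δ} := by
      show A.ht (A.tr δ hδ0 u) ≤ δ
      rw [A.ht_tr]; exact min_le_left _ _
    rw [hf] at hmem
    obtain ⟨n, hn⟩ := hmem
    refine ⟨G n, mem_range_self n, ?_⟩
    have := hG2 n u (by rw [hn])
    rw [hn] at this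
    exact this

/-- separation of a node from finitely many others -/
theorem exists_level (t : A.T) (F : Set A.T) (hF : F.Finite) :
    ∃ α, α < A.ht t ∧ ∀ t' ∈ F, ∀ ξ < A.ht t, (∀ η < ξ, A.fn t η = A.fn t' η) →
      A.fn t ξ ≠ A.fn t' ξ → ξ ≤ α := by
  induction F, hF using Set.Finite.induction_on with
  | empty => exact ⟨⊥, A.pos _, fun t' h => absurd h (notMem_empty _)⟩
  | @insert a S _ _ ih =>
    obtain ⟨α, hα, h⟩ := ih
    by_cases hex : ∃ ξ < A.ht t, (∀ η < ξ, A.fn t η = A.fn a η) ∧ A.fn t ξ ≠ A.fn a ξ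
    · obtain ⟨ζ, hζ, h1, h2⟩ := hex
      refine ⟨max α ζ, max_lt hα hζ, ?_⟩
      intro t' ht' ξ hξ h3 h4
      rcases ht' with rfl | ht'
      · rw [diff_unique h3 h4 h1 h2]; exact le_max_right _ _
      · exact (h t' ht' ξ hξ h3 h4).trans (le_max_left _ _)
    · refine ⟨α, hα, ?_⟩
      intro t' ht' ξ hξ h3 h4
      rcases ht' with rfl | ht'
      · exact absurd ⟨ξ, hξ, h3, h4⟩ hex
      · exact h t' ht' ξ hξ h3 h4

/-- the nodes both of whose copies lie in `O` -/
def Both (O : Set (Sp A)) : Set A.T :=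
  {t | ((t, false) : A.T × Bool) ∈ O ∧ ((t, true) : A.T × Bool) ∈ O}

theorem both_same {t u : A.T} {α β : W} (h1 : Below A false α t u) (h2 : Below A true β t u) :
    A.ht u ≤ A.ht t := by
  rcases h1.2 with rfl | ⟨ξ, h3, h4⟩
  · exact le_rfl
  · rcases h2.2 with rfl | ⟨ζ, h5, h6⟩
    · exact le_rfl
    · have hn1 : A.fn u ξ ≠ A.fn t ξ := by
        intro h; rw [h] at h4; exact (good_rho false).irrefl _ h4
      have hn2 : A.fn u ζ ≠ A.fn t ζ := by
        intro h; rw [h] at h6; exact (good_rho true).irrefl _ h6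
      have := diff_unique h3 hn1 h5 hn2
      subst this
      simp only [rho, Bool.false_eq_true, if_false] at h4
      simp only [rho, if_true] at h6
      have h7 : A.fn u ξ = 0 := by omega
      have h8 : ξ < A.ht t := by
        by_contra hcon
        have := (A.zero t ξ).2 (not_lt.1 hcon)
        omega
      exact ((A.zero _ _).1 h7).trans h8.le

theorem both_diff {t t' u : A.T} {i j : Bool} {α β : W} (hne : t ≠ t')
    (hα : ∀ ξ < A.ht t, (∀ η < ξ, A.fn t η = A.fn t' η) → A.fn t ξ ≠ A.fn t' ξ → ξ ≤ α)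
    (hβ : ∀ ξ < A.ht t', (∀ η < ξ, A.fn t' η = A.fn t η) → A.fn t' ξ ≠ A.fn t ξ → ξ ≤ β)
    (h1 : Below A i α t u) (h2 : Below A j β t' u) : False := by
  obtain ⟨ξ, h3, h4⟩ := first_diff (fun h => hne (A.inj h) : A.fn t ≠ A.fn t')
  have aux : ∀ (t t' : A.T) (i j : Bool) (α β : W),
      (∀ ξ < A.ht t, (∀ η < ξ, A.fn t η = A.fn t' η) → A.fn t ξ ≠ A.fn t' ξ → ξ ≤ α) →
      (∀ η < ξ, A.fn t η = A.fn t' η) → A.fn t ξ ≠ A.fn t' ξ →
      Below A i α t u → Below A j β t' u → A.fn t' ξ = 0 → False := by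
    intro t t' i j α β hα h3 h4 h1 h2 h5
    have hξ : ξ < A.ht t := by
      by_contra hcon
      exact h4 (((A.zero _ _).2 (not_lt.1 hcon)).trans h5.symm)
    have h6 := hα ξ hξ h3 h4
    have h7 : Lt (rho j) (A.fn t') (A.fn u) := by
      refine ⟨ξ, fun η hη => ?_, ?_⟩
      · rw [h1.1 η (hη.le.trans h6)]; exact (h3 η hη).symm
      · rw [h5, h1.1 ξ h6]
        refine (good_rho j).zero _ ?_
        intro h8; exact h4 (h8.trans h5.symm)
    rcases h2.2 with h8 | h8
    · subst h8; exact Lt.irrefl (good_rho j) _ h7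
    · exact Lt.asymm (good_rho j) h7 h8
  by_cases h5 : A.fn t' ξ = 0
  · exact aux t t' i j α β hα h3 h4 h1 h2 h5
  by_cases h6 : A.fn t ξ = 0
  · exact aux t' t j i β α hβ (fun η hη => (h3 η hη).symm) h4.symm h2 h1 h6
  have h7 : ξ < A.ht t := by
    by_contra hcon; exact h6 ((A.zero _ _).2 (not_lt.1 hcon))
  have h8 : ξ < A.ht t' := by
    by_contra hcon; exact h5 ((A.zero _ _).2 (not_lt.1 hcon))
  have h9 := h1.1 ξ (hα ξ h7 h3 h4)
  have h10 := h2.1 ξ (hβ ξ h8 (fun η hη => (h3 η hη).symm) h4.symm)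
  exact h4 (h9.symm.trans h10)

theorem not_omega (hc : ∀ a : W, (Iio a).Countable) : ¬ IsOmegaRothberger (Sp A) := by
  intro hX
  let 𝒲 : Set (Set (Sp A)) := {O | IsOpen O ∧ (Both O).Countable}
  have hfin : ∀ F : Set (Sp A), F.Finite → ∃ O ∈ 𝒲, F ⊆ O := by
    intro F hF
    let S : Set A.T := Prod.fst '' F
    have hS : S.Finite := hF.image _
    choose al hal1 hal2 using fun t : A.T => exists_level t S hS
    refine ⟨⋃ p ∈ F, Nb p.2 (al p.1) p.1, ⟨?_, ?_⟩, ?_⟩
    · exact isOpen_biUnion fun p _ => isOpen_Nb (hal1 _)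
    · have hsub : Both (⋃ p ∈ F, Nb p.2 (al p.1) p.1) ⊆ ⋃ t ∈ S, {u | A.ht u ≤ A.ht t} := by
        rintro u ⟨h1, h2⟩
        obtain ⟨⟨t, i⟩, hp, hi, h1⟩ := mem_iUnion₂.1 h1
        obtain ⟨⟨t', j⟩, hq, hj, h2⟩ := mem_iUnion₂.1 h2
        simp only at hi hj h1 h2
        subst hi
        subst hj
        have htS : t ∈ S := ⟨_, hp, rfl⟩
        have htS' : t' ∈ S := ⟨_, hq, rfl⟩
        by_cases htt : t = t'
        · subst htt
          exact mem_biUnion htS (both_same h1 h2)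
        · exact (both_diff htt (hal2 t t' htS') (hal2 t' t htS) h1 h2).elim
      refine Set.Countable.mono hsub ?_
      exact hS.countable.biUnion fun t _ => A.countable_le hc _
    · intro p hp
      exact mem_biUnion hp (mem_Nb_self _ _ _)
  have hW : IsOmegaCover 𝒲 := by
    refine ⟨⟨fun O hO => hO.1, ?_⟩, ?_, hfin⟩
    · rw [eq_univ_iff_forall]
      intro p
      obtain ⟨O, hO, hp⟩ := hfin {p} (finite_singleton p)
      exact ⟨O, hO, hp rfl⟩
    · rintro ⟨_, h⟩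
      apply nodes_uncountable hc A
      convert h using 1
      ext t
      exact ⟨fun _ => ⟨mem_univ _, mem_univ _⟩, fun _ => mem_univ _⟩
  obtain ⟨V, hV, hV2⟩ := hX (fun _ => 𝒲) (fun _ => hW)
  have hcount : (⋃ n, Both (V n)).Countable := countable_iUnion fun n => (hV n).2
  obtain ⟨t, ht⟩ : ∃ t, t ∉ ⋃ n, Both (V n) := by
    by_contra hcon
    push Not at hcon
    exact nodes_uncountable hc A (hcount.mono fun t _ => hcon t)
  let F : Set (Sp A) := {(t, false), (t, true)}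
  obtain ⟨O, ⟨n, rfl⟩, hO⟩ := hV2.2.2 F
    ((Set.finite_singleton (α := Sp A) (t, true)).insert (t, false))
  apply ht
  refine mem_iUnion.2 ⟨n, hO ?_, hO ?_⟩
  · left; rfl
  · right; rfl

end Space

/-- ZFC proves that there is a Rothberger space that is not omega-Rothberger, and it can
be taken Hausdorff with a base of clopen sets. -/
theorem result : ∃ (X : Type) (_ : TopologicalSpace X),
    T2Space X ∧ TopologicalSpace.IsTopologicalBasis {s : Set X | IsClopen s} ∧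
    IsRothberger X ∧ ¬ IsOmegaRothberger X := by
  let W : Type := (Cardinal.aleph 1).ord.ToType
  have hc : ∀ a : W, (Iio a).Countable := by
    intro a
    have h1 : Cardinal.mk (Iio a) < Cardinal.mk W := Cardinal.mk_Iio_lt a (by simp [W])
    rw [show Cardinal.mk W = Cardinal.aleph 1 by simp [W]] at h1
    exact (Cardinal.countable_iff_lt_aleph_one _).2 h1
  have : Uncountable W := by
    rw [← Cardinal.aleph0_lt_mk_iff, show Cardinal.mk W = Cardinal.aleph 1 by simp [W]]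
    exact Cardinal.aleph0_lt_aleph_one
  have : Nonempty W := inferInstance
  letI : OrderBot W := WellFoundedLT.toOrderBot W
  obtain ⟨A⟩ := exists_ATree hc
  exact ⟨Sp A, inferInstance, t2, isBasis, rothberger hc, not_omega hc⟩

end Pool.Agent.Results.MP_f9bcb0_lc.RothbergerNotOmega
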